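import Mathlib

/-!
Elementary sl2 theory in the form needed for polynomials in a box: raising and lowering operators
`E`, `F` on a family of weight spaces.  `E ^ r` is onto `Wt h` from `Wt (h - 2 r)` whenever
`r <= h`.
-/

set_option autoImplicit false

namespace Pool.Agent.HS44

section Abs

variable {V : Type*} [AddCommGroup V] [Module ℚ V] {E F : V →ₗ[ℚ] V} {Wt : ℤ → Submodule ℚ V}

/-- the data: `E` raises the weight by two, `F` lowers it by two, `[E, F] = h`, `E` is locally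
nilpotent. -/
structure SlData (E F : V →ₗ[ℚ] V) (Wt : ℤ → Submodule ℚ V) : Prop where
  hE : ∀ h v, v ∈ Wt h → E v ∈ Wt (h + 2)
  hF : ∀ h v, v ∈ Wt h → F v ∈ Wt (h - 2)
  hc : ∀ h v, v ∈ Wt h → E (F v) = F (E v) + (h : ℚ) • v
  hn : ∀ h v, v ∈ Wt h → ∃ r : ℕ, (E ^ r) v = 0

theorem SlData.pow_mem (D : SlData E F Wt) (r : ℕ) (h : ℤ) (v : V) (hv : v ∈ Wt h) :
    (E ^ r) v ∈ Wt (h + 2 * r) := by
  induction r generalizing h v with
  | zero => simpa using hv
  | succ r ih =>
    rw [pow_succ, Module.End.mul_apply]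
    have := ih (h + 2) (E v) (D.hE h v hv)
    have e : h + 2 + 2 * (r : ℤ) = h + 2 * ((r + 1 : ℕ) : ℤ) := by push_cast; ring
    rwa [e] at this

theorem SlData.powF_mem (D : SlData E F Wt) (r : ℕ) (h : ℤ) (v : V) (hv : v ∈ Wt h) :
    (F ^ r) v ∈ Wt (h - 2 * r) := by
  induction r generalizing h v with
  | zero => simpa using hv
  | succ r ih =>
    rw [pow_succ, Module.End.mul_apply]
    have := ih (h - 2) (F v) (D.hF h v hv)
    have e : h - 2 - 2 * (r : ℤ) = h - 2 * ((r + 1 : ℕ) : ℤ) := by push_cast; ring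
    rwa [e] at this

theorem SlData.comm_pow (D : SlData E F Wt) (r : ℕ) (h : ℤ) (v : V) (hv : v ∈ Wt h) :
    (E ^ (r + 1)) (F v) = F ((E ^ (r + 1)) v) + (((r + 1 : ℕ) : ℚ) * ((h : ℚ) + r)) • (E ^ r) v := by
  induction r with
  | zero => simpa using D.hc h v hv
  | succ r ih =>
    rw [pow_succ', Module.End.mul_apply, ih, map_add, map_smul]
    have h1 := D.hc _ _ (D.pow_mem (r + 1) h v hv)
    rw [h1]
    have e2 : E ((E ^ r) v) = (E ^ (r + 1)) v := by
      rw [pow_succ', Module.End.mul_apply]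
    have e3 : (E * E ^ (r + 1)) v = E ((E ^ (r + 1)) v) := rfl
    rw [e3, e2, add_assoc, ← add_smul]
    congr 2
    push_cast
    ring

theorem SlData.inj_step (D : SlData E F Wt) (h : ℤ) (h0 : 0 ≤ h) (c : ℚ) (hc : 0 < c) (v : V)
    (hv : v ∈ Wt h) (heq : F (E v) + c • v = 0) : v = 0 := by
  classical
  by_contra hne
  obtain ⟨r, hr⟩ := D.hn h v hv
  have hex : ∃ r : ℕ, (E ^ r) v = 0 := ⟨r, hr⟩
  obtain ⟨s, hs0, hmin⟩ : ∃ s : ℕ, (E ^ s) v = 0 ∧ ∀ t, t < s → (E ^ t) v ≠ 0 :=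
    ⟨Nat.find hex, Nat.find_spec hex, fun t ht => Nat.find_min hex ht⟩
  rcases Nat.lt_or_ge s 2 with hlt | hge
  · have hE0 : E v = 0 := by
      interval_cases s
      · exact absurd (by simpa using hs0) hne
      · simpa using hs0
    rw [hE0, map_zero, zero_add] at heq
    rcases smul_eq_zero.mp heq with h1 | h1
    · exact hc.ne' h1
    · exact hne h1
  · obtain ⟨t, rfl⟩ : ∃ t, s = t + 2 := ⟨s - 2, by omega⟩
    have key := D.comm_pow t (h + 2) (E v) (D.hE h v hv)
    have e1 : (E ^ (t + 1)) (E v) = 0 := by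
      rw [← Module.End.mul_apply, ← pow_succ]; exact hs0
    have e2 : (E ^ t) (E v) = (E ^ (t + 1)) v := by
      rw [← Module.End.mul_apply, ← pow_succ]
    have e3 : F (E v) = (-c) • v := by
      rw [neg_smul]; exact eq_neg_of_add_eq_zero_left heq
    rw [e1, e2, e3, map_smul, map_zero, zero_add] at key
    have hnz : (E ^ (t + 1)) v ≠ 0 := hmin (t + 1) (by omega)
    have h2 : (-c - (((t + 1 : ℕ) : ℚ) * (((h + 2 : ℤ) : ℚ) + t))) • (E ^ (t + 1)) v = 0 := by
      rw [sub_smul, key, sub_self]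
    rcases smul_eq_zero.mp h2 with h3 | h3
    · have h0' : (0 : ℚ) ≤ h := by exact_mod_cast h0
      have : (0 : ℚ) ≤ (((t + 1 : ℕ) : ℚ) * (((h + 2 : ℤ) : ℚ) + t)) := by
        push_cast
        positivity
      linarith
    · exact hnz h3

/-- the product of the operators `F E + c i`, `i < r`. -/
noncomputable def prodOp (E F : V →ₗ[ℚ] V) (c : ℕ → ℚ) : ℕ → V → V
  | 0, v => v
  | r + 1, v => F (E (prodOp E F c r v)) + c r • prodOp E F c r v

theorem SlData.prodOp_mem (D : SlData E F Wt) (c : ℕ → ℚ) (r : ℕ) (h : ℤ) (v : V)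
    (hv : v ∈ Wt h) : prodOp E F c r v ∈ Wt h := by
  induction r with
  | zero => exact hv
  | succ r ih =>
    refine Submodule.add_mem _ ?_ (Submodule.smul_mem _ _ ih)
    have := D.hF _ _ (D.hE _ _ ih)
    simpa using this

theorem SlData.prodOp_E (D : SlData E F Wt) (c : ℕ → ℚ) (r : ℕ) (h : ℤ) (v : V)
    (hv : v ∈ Wt h) :
    E (prodOp E F c r (F v)) = prodOp E F (fun i => c i + h) r (E (F v)) := by
  induction r with
  | zero => rfl
  | succ r ih =>
    have hm := D.hE _ _ (D.prodOp_mem c r (h - 2) (F v) (D.hF h v hv))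
    rw [sub_add_cancel] at hm
    have h1 := D.hc _ _ hm
    simp only [prodOp]
    rw [map_add, map_smul, h1, ih, add_assoc, ← add_smul, add_comm (h : ℚ)]

theorem prodOp_add (E F : V →ₗ[ℚ] V) (c : ℕ → ℚ) (r : ℕ) (v : V) :
    prodOp E F (fun i => c (i + 1)) r (F (E v) + c 0 • v) = prodOp E F c (r + 1) v := by
  induction r with
  | zero => rfl
  | succ r ih =>
    rw [prodOp, ih]
    rfl

theorem SlData.pow_pow (D : SlData E F Wt) (r : ℕ) (h : ℤ) (v : V) (hv : v ∈ Wt h) :
    (E ^ r) ((F ^ r) v) = prodOp E F (fun i => ((i : ℚ) + 1) * ((h : ℚ) - i)) r v := by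
  induction r generalizing h v with
  | zero => rfl
  | succ r ih =>
    rw [pow_succ' E, pow_succ F, Module.End.mul_apply, Module.End.mul_apply,
      ih (h - 2) (F v) (D.hF h v hv), D.prodOp_E _ _ h v hv, D.hc h v hv, ← prodOp_add]
    have e : (fun i : ℕ => ((i : ℚ) + 1) * ((((h - 2 : ℤ) : ℚ)) - i) + h)
        = (fun i : ℕ => (((i + 1 : ℕ) : ℚ) + 1) * ((h : ℚ) - ((i + 1 : ℕ) : ℚ))) := by
      funext i
      push_cast
      ring
    rw [e]
    congr 2
    simp

theorem SlData.prodOp_inj (D : SlData E F Wt) (c : ℕ → ℚ) (r : ℕ) (hpos : ∀ i, i < r → 0 < c i)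
    (h : ℤ) (h0 : 0 ≤ h) (v : V) (hv : v ∈ Wt h) (h1 : prodOp E F c r v = 0) : v = 0 := by
  induction r with
  | zero => exact h1
  | succ r ih =>
    refine ih (fun i hi => hpos i (by omega)) ?_
    exact D.inj_step h h0 (c r) (hpos r (by omega)) _ (D.prodOp_mem c r h v hv) h1

theorem SlData.surj (D : SlData E F Wt) (r : ℕ) (h : ℤ) (hr : (r : ℤ) ≤ h)
    [FiniteDimensional ℚ (Wt h)] (w : V) (hw : w ∈ Wt h) :
    ∃ v ∈ Wt (h - 2 * r), (E ^ r) v = w := by
  have h0 : 0 ≤ h := le_trans (by positivity) hr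
  have hmem : ∀ v ∈ Wt h, (E ^ r * F ^ r) v ∈ Wt h := by
    intro v hv
    have := D.pow_mem r _ _ (D.powF_mem r h v hv)
    rw [sub_add_cancel] at this
    exact this
  let T : Wt h →ₗ[ℚ] Wt h := (E ^ r * F ^ r).restrict hmem
  have hinj : Function.Injective T := by
    rw [← LinearMap.ker_eq_bot, LinearMap.ker_eq_bot']
    intro v hv
    have h1 : (E ^ r) ((F ^ r) (v : V)) = 0 := by
      have := congrArg Subtype.val hv
      simpa [T] using this
    rw [D.pow_pow r h v v.2] at h1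
    have := D.prodOp_inj _ r (fun i hi => ?_) h h0 v v.2 h1
    · exact Subtype.ext this
    · have hi' : (i : ℚ) + 1 ≤ h := by
        have : ((i + 1 : ℕ) : ℤ) ≤ h := le_trans (by exact_mod_cast hi) hr
        exact_mod_cast this
      have : (0 : ℚ) < (h : ℚ) - i := by linarith
      positivity
  have hsurj : Function.Surjective T := LinearMap.injective_iff_surjective.mp hinj
  obtain ⟨v, hv⟩ := hsurj ⟨w, hw⟩
  refine ⟨(F ^ r) (v : V), D.powF_mem r h v v.2, ?_⟩
  have := congrArg Subtype.val hv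
  simpa [T] using this

end Abs

end Pool.Agent.HS44
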