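import Mathlib
import Pool.Agent.HS44.SlTwo

/-!
Polynomials whose exponents lie in a box `a i <= d i`: the operator `E = sum of the partial
derivatives` from degree `m` to degree `m - r` is onto as soon as `2 m - r <= sum d i`.
-/

set_option autoImplicit false

namespace Pool.Agent.HS44

open MvPolynomial

variable {σ : Type*} [Fintype σ]

/-- exponent vectors in the box `a i <= d i` of total degree `m`. -/
def boxSet (d : σ → ℕ) (m : ℕ) : Set (σ →₀ ℕ) := {a | (∀ i, a i ≤ d i) ∧ ∑ i, a i = m}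

/-- polynomials with all exponents in the box, homogeneous of degree `m`. -/
noncomputable def boxW (d : σ → ℕ) (m : ℕ) : Submodule ℚ (MvPolynomial σ ℚ) :=
  restrictSupport ℚ (boxSet d m)

/-- the same, with the index given as a weight. -/
noncomputable def boxWt (d : σ → ℕ) (h : ℤ) : Submodule ℚ (MvPolynomial σ ℚ) :=
  restrictSupport ℚ
    {a | (∀ i, a i ≤ d i) ∧ ((∑ i, d i : ℕ) : ℤ) - 2 * ((∑ i, a i : ℕ) : ℤ) = h}

theorem boxW_eq_boxWt (d : σ → ℕ) (m : ℕ) :
    boxW d m = boxWt d (((∑ i, d i : ℕ) : ℤ) - 2 * (m : ℤ)) := by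
  unfold boxW boxWt
  congr 1
  ext a
  simp only [boxSet, Set.mem_ofPred_eq]
  constructor
  · rintro ⟨h1, h2⟩
    exact ⟨h1, by rw [h2]⟩
  · rintro ⟨h1, h2⟩
    exact ⟨h1, by omega⟩

/-- the derivation `sum of all partial derivatives`. -/
noncomputable def derE : Derivation ℚ (MvPolynomial σ ℚ) (MvPolynomial σ ℚ) := ∑ i, pderiv i

/-- the raising operator. -/
noncomputable def opE : MvPolynomial σ ℚ →ₗ[ℚ] MvPolynomial σ ℚ :=
  (derE : Derivation ℚ (MvPolynomial σ ℚ) (MvPolynomial σ ℚ)).toLinearMap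

/-- the lowering operator. -/
noncomputable def opF (d : σ → ℕ) : MvPolynomial σ ℚ →ₗ[ℚ] MvPolynomial σ ℚ :=
  ∑ i, ((d i : ℚ) • (LinearMap.mulLeft ℚ (X i)) -
    (LinearMap.mulLeft ℚ (X i ^ 2)).comp (pderiv i).toLinearMap)

theorem derE_apply (p : MvPolynomial σ ℚ) : derE p = ∑ i, pderiv i p := by
  unfold derE
  induction (Finset.univ : Finset σ) using Finset.cons_induction with
  | empty => simp
  | cons a s ha ih => simp [Finset.sum_cons, ih]

theorem opE_apply (p : MvPolynomial σ ℚ) : opE p = ∑ i, pderiv i p := derE_apply p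

theorem opE_eq (p : MvPolynomial σ ℚ) : opE p = derE p := rfl

theorem opF_apply (d : σ → ℕ) (p : MvPolynomial σ ℚ) :
    opF d p = ∑ i, ((d i : ℚ) • (X i * p) - X i ^ 2 * pderiv i p) := by
  simp [opF, LinearMap.sum_apply]

theorem derE_X (i : σ) : derE (X i : MvPolynomial σ ℚ) = 1 := by
  classical
  rw [derE_apply]
  simp [pderiv_X, Pi.single_apply]

theorem pderiv_derE (i : σ) (p : MvPolynomial σ ℚ) : pderiv i (derE p) = derE (pderiv i p) := by
  classical
  have h : ⁅(pderiv i : Derivation ℚ (MvPolynomial σ ℚ) (MvPolynomial σ ℚ)),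
      (derE : Derivation ℚ (MvPolynomial σ ℚ) (MvPolynomial σ ℚ))⁆ = 0 := by
    apply MvPolynomial.derivation_ext
    intro k
    rw [Derivation.commutator_apply, derE_X, pderiv_X]
    by_cases hk : k = i
    · subst hk; simp
    · rw [Pi.single_eq_of_ne (Ne.symm (Ne.symm hk))]
      simp
  have h2 := congrArg (fun D => D p) h
  simp only [Derivation.commutator_apply, Derivation.coe_zero, Pi.zero_apply] at h2
  exact sub_eq_zero.mp h2

theorem comm_EF (d : σ → ℕ) (p : MvPolynomial σ ℚ) :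
    opE (opF d p) = opF d (opE p) +
      (((∑ i, d i : ℕ) : ℚ) • p - (2 : ℚ) • ∑ i, X i * pderiv i p) := by
  rw [opF_apply, opF_apply, opE_eq, opE_eq, map_sum]
  have h1 : ∀ i, derE ((d i : ℚ) • (X i * p) - X i ^ 2 * pderiv i p)
      = ((d i : ℚ) • (X i * derE p) - X i ^ 2 * pderiv i (derE p)) +
        ((d i : ℚ) • p - (2 : ℚ) • (X i * pderiv i p)) := by
    intro i
    rw [map_sub, Derivation.map_smul, Derivation.leibniz, Derivation.leibniz,
      Derivation.leibniz_pow, derE_X, pderiv_derE]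
    simp only [smul_eq_mul, smul_add, nsmul_eq_mul, MvPolynomial.smul_eq_C_mul, map_ofNat]
    push_cast
    ring
  have h2 : ∑ i, ((d i : ℚ) • p - (2 : ℚ) • (X i * pderiv i p))
      = ((∑ i, d i : ℕ) : ℚ) • p - (2 : ℚ) • ∑ i, X i * pderiv i p := by
    rw [Finset.sum_sub_distrib, ← Finset.sum_smul, ← Finset.smul_sum]
    push_cast
    rfl
  rw [Finset.sum_congr rfl (fun i _ => h1 i), Finset.sum_add_distrib, h2]

theorem opE_monomial_mem (d : σ → ℕ) (h : ℤ) (a : σ →₀ ℕ) (ha : ∀ i, a i ≤ d i)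
    (hs : ((∑ i, d i : ℕ) : ℤ) - 2 * ((∑ i, a i : ℕ) : ℤ) = h) :
    opE (monomial a (1 : ℚ)) ∈ boxWt d (h + 2) := by
  classical
  rw [opE_apply]
  refine Submodule.sum_mem _ fun i _ => ?_
  rw [pderiv_monomial]
  unfold boxWt
  rw [monomial_mem_restrictSupport]
  by_cases hi : a i = 0
  · right; simp [hi]
  · left
    refine ⟨fun j => ?_, ?_⟩
    · refine le_trans ?_ (ha j)
      simp
    · have h1 : ∑ j, (a - Finsupp.single i 1 : σ →₀ ℕ) j + 1 = ∑ j, a j := by
        have : a = (a - Finsupp.single i 1) + Finsupp.single i 1 := by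
          ext j
          by_cases hj : j = i
          · subst hj; simp; omega
          · simp [Finsupp.single_eq_of_ne hj]
        conv_rhs => rw [this]
        simp [Finset.sum_add_distrib]
      have h2 : ((∑ j, (a - Finsupp.single i 1 : σ →₀ ℕ) j : ℕ) : ℤ) + 1
          = ((∑ j, a j : ℕ) : ℤ) := by exact_mod_cast h1
      linarith

theorem opF_monomial (d : σ → ℕ) (a : σ →₀ ℕ) :
    opF d (monomial a (1 : ℚ)) =
      ∑ i, monomial (a + Finsupp.single i 1) ((d i : ℚ) - (a i : ℚ)) := by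
  classical
  rw [opF_apply]
  refine Finset.sum_congr rfl fun i _ => ?_
  have h1 : X i * monomial a (1 : ℚ) = monomial (a + Finsupp.single i 1) 1 := by
    rw [X, monomial_mul, add_comm]; simp
  have h2 : X i ^ 2 * pderiv i (monomial a (1 : ℚ))
      = (a i : ℚ) • monomial (a + Finsupp.single i 1) (1 : ℚ) := by
    have := X_mul_pderiv_monomial (R := ℚ) (i := i) (m := a) (r := 1)
    rw [pow_two, mul_assoc, this, ← h1, mul_smul_comm]
    exact (Nat.cast_smul_eq_nsmul ℚ _ _).symm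
  rw [h1, h2, ← sub_smul, smul_monomial, smul_eq_mul, mul_one]

theorem opF_monomial_mem (d : σ → ℕ) (h : ℤ) (a : σ →₀ ℕ) (ha : ∀ i, a i ≤ d i)
    (hs : ((∑ i, d i : ℕ) : ℤ) - 2 * ((∑ i, a i : ℕ) : ℤ) = h) :
    opF d (monomial a (1 : ℚ)) ∈ boxWt d (h - 2) := by
  classical
  rw [opF_monomial]
  refine Submodule.sum_mem _ fun i _ => ?_
  unfold boxWt
  rw [monomial_mem_restrictSupport]
  by_cases hi : a i = d i
  · right; simp [hi]
  · left
    refine ⟨fun j => ?_, ?_⟩
    · by_cases hj : j = i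
      · subst hj
        have := ha j
        simp; omega
      · simp [Finsupp.single_eq_of_ne hj, ha j]
    · have h1 : ∑ j, (a + Finsupp.single i 1 : σ →₀ ℕ) j = ∑ j, a j + 1 := by
        simp [Finset.sum_add_distrib]
      have h2 : ((∑ j, (a + Finsupp.single i 1 : σ →₀ ℕ) j : ℕ) : ℤ)
          = ((∑ j, a j : ℕ) : ℤ) + 1 := by exact_mod_cast h1
      linarith

theorem boxWt_span (d : σ → ℕ) (h : ℤ) : boxWt d h = Submodule.span ℚ
    ((fun a => monomial a (1 : ℚ)) ''
      {a : σ →₀ ℕ | (∀ i, a i ≤ d i) ∧ ((∑ i, d i : ℕ) : ℤ) - 2 * ((∑ i, a i : ℕ) : ℤ) = h}) := by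
  unfold boxWt
  rw [restrictSupport_eq_span]

theorem boxWt_homog (d : σ → ℕ) (h : ℤ) (p : MvPolynomial σ ℚ) (hp : p ∈ boxWt d h) :
    (((∑ i, d i : ℕ) : ℚ) • p - (2 : ℚ) • ∑ i, X i * pderiv i p) = (h : ℚ) • p := by
  rw [boxWt_span] at hp
  induction hp using Submodule.span_induction with
  | mem x hx =>
    obtain ⟨a, ⟨_, ha⟩, rfl⟩ := hx
    have h1 : ∑ i, X i * pderiv i (monomial a (1 : ℚ))
        = ((∑ i, a i : ℕ) : ℚ) • monomial a (1 : ℚ) := by
      rw [Finset.sum_congr rfl (fun i _ => X_mul_pderiv_monomial), ← Finset.sum_smul]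
      exact (Nat.cast_smul_eq_nsmul ℚ _ _).symm
    dsimp only
    rw [h1, smul_smul, ← sub_smul]
    congr 1
    rw [← ha]
    push_cast
    ring
  | zero => simp
  | add x y _ _ hx hy =>
    simp only [map_add, mul_add, Finset.sum_add_distrib, smul_add] at hx hy ⊢
    rw [← hx, ← hy]
    abel
  | smul c x _ hx =>
    simp only [Derivation.map_smul, mul_smul_comm, ← Finset.smul_sum] at hx ⊢
    rw [smul_comm (h : ℚ) c x, ← hx, smul_sub, smul_comm c, smul_comm c]

instance boxSet_finite (d : σ → ℕ) (m : ℕ) : Finite (boxSet d m) := by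
  classical
  have : (boxSet d m) ⊆ Set.Icc 0 (Finsupp.equivFunOnFinite.symm d) := by
    intro a ha
    refine ⟨fun i => Nat.zero_le _, fun i => ?_⟩
    simpa using ha.1 i
  exact Set.Finite.subset (Set.finite_Icc _ _) this

instance boxW_fd (d : σ → ℕ) (m : ℕ) : FiniteDimensional ℚ (boxW d m) :=
  Module.Finite.of_basis (basisRestrictSupport ℚ (boxSet d m))

theorem finrank_boxW (d : σ → ℕ) (m : ℕ) :
    Module.finrank ℚ (boxW d m) = Nat.card (boxSet d m) :=
  Module.finrank_eq_nat_card_basis (basisRestrictSupport ℚ (boxSet d m))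

theorem slData (d : σ → ℕ) : SlData (V := MvPolynomial σ ℚ) opE (opF d) (boxWt d) where
  hE := by
    intro h v hv
    rw [boxWt_span] at hv
    induction hv using Submodule.span_induction with
    | mem x hx =>
      obtain ⟨a, ⟨h1, h2⟩, rfl⟩ := hx
      exact opE_monomial_mem d h a h1 h2
    | zero => simp
    | add x y _ _ hx hy => rw [map_add]; exact Submodule.add_mem _ hx hy
    | smul c x _ hx => rw [map_smul]; exact Submodule.smul_mem _ _ hx
  hF := by
    intro h v hv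
    rw [boxWt_span] at hv
    induction hv using Submodule.span_induction with
    | mem x hx =>
      obtain ⟨a, ⟨h1, h2⟩, rfl⟩ := hx
      exact opF_monomial_mem d h a h1 h2
    | zero => simp
    | add x y _ _ hx hy => rw [map_add]; exact Submodule.add_mem _ hx hy
    | smul c x _ hx => rw [map_smul]; exact Submodule.smul_mem _ _ hx
  hc := by
    intro h v hv
    rw [comm_EF, boxWt_homog d h v hv]
  hn := by
    intro h v hv
    -- for the weight above the top weight the space is zero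
    have hE : ∀ h v, v ∈ boxWt d h → opE v ∈ boxWt d (h + 2) := by
      intro h v hv
      rw [boxWt_span] at hv
      induction hv using Submodule.span_induction with
      | mem x hx =>
        obtain ⟨a, ⟨h1, h2⟩, rfl⟩ := hx
        exact opE_monomial_mem d h a h1 h2
      | zero => simp
      | add x y _ _ hx hy => rw [map_add]; exact Submodule.add_mem _ hx hy
      | smul c x _ hx => rw [map_smul]; exact Submodule.smul_mem _ _ hx
    have hpow : ∀ (r : ℕ) (h : ℤ) (v : MvPolynomial σ ℚ), v ∈ boxWt d h →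
        (opE ^ r) v ∈ boxWt d (h + 2 * r) := by
      intro r
      induction r with
      | zero => intro h v hv; simpa using hv
      | succ r ih =>
        intro h v hv
        rw [pow_succ, Module.End.mul_apply]
        have := ih (h + 2) (opE v) (hE h v hv)
        have e : h + 2 + 2 * (r : ℤ) = h + 2 * ((r + 1 : ℕ) : ℤ) := by push_cast; ring
        rwa [e] at this
    have htop : ∀ h : ℤ, ((∑ i, d i : ℕ) : ℤ) < h → boxWt d h = ⊥ := by
      intro h hh
      rw [boxWt_span]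
      rw [Submodule.span_eq_bot]
      rintro x ⟨a, ⟨_, h2⟩, rfl⟩
      exfalso
      have : (0 : ℤ) ≤ ((∑ i, a i : ℕ) : ℤ) := by positivity
      omega
    obtain ⟨r, hr⟩ : ∃ r : ℕ, ((∑ i, d i : ℕ) : ℤ) < h + 2 * r := by
      refine ⟨(((∑ i, d i : ℕ) : ℤ) - h).toNat + 1, ?_⟩
      push_cast
      have := Int.self_le_toNat (((∑ i, d i : ℕ) : ℤ) - h)
      push_cast at this
      omega
    refine ⟨r, ?_⟩
    have := hpow r h v hv
    rw [htop _ hr] at this
    simpa using this

/-- `E ^ r` maps degree `m + r` to degree `m`. -/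
theorem opE_pow_mem (d : σ → ℕ) (m r : ℕ) (p : MvPolynomial σ ℚ) (hp : p ∈ boxW d (m + r)) :
    (opE ^ r) p ∈ boxW d m := by
  rw [boxW_eq_boxWt] at hp ⊢
  have := (slData d).pow_mem r _ p hp
  have e : ((∑ i, d i : ℕ) : ℤ) - 2 * ((m + r : ℕ) : ℤ) + 2 * (r : ℤ)
      = ((∑ i, d i : ℕ) : ℤ) - 2 * (m : ℤ) := by push_cast; ring
  rwa [e] at this

/-- `E ^ r` kills everything of degree less than `r`. -/
theorem opE_pow_eq_zero (d : σ → ℕ) (m r : ℕ) (hmr : m < r) (p : MvPolynomial σ ℚ)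
    (hp : p ∈ boxW d m) : (opE ^ r) p = 0 := by
  rw [boxW_eq_boxWt] at hp
  have := (slData d).pow_mem r _ p hp
  rw [boxWt_span] at this
  have e : {a : σ →₀ ℕ | (∀ i, a i ≤ d i) ∧ ((∑ i, d i : ℕ) : ℤ) - 2 * ((∑ i, a i : ℕ) : ℤ) =
      ((∑ i, d i : ℕ) : ℤ) - 2 * (m : ℤ) + 2 * (r : ℤ)} = ∅ := by
    ext a
    simp only [Set.mem_ofPred_eq, Set.mem_empty_iff_false, iff_false, not_and]
    intro _
    have : (0 : ℤ) ≤ ((∑ i, a i : ℕ) : ℤ) := by positivity
    omega
  rw [e] at this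
  simpa using this

/-- surjectivity of `E ^ r` from degree `m + r` to degree `m`. -/
theorem opE_pow_surj (d : σ → ℕ) (m r : ℕ) (hmr : 2 * m + r ≤ ∑ i, d i) (q : MvPolynomial σ ℚ)
    (hq : q ∈ boxW d m) : ∃ p ∈ boxW d (m + r), (opE ^ r) p = q := by
  have : FiniteDimensional ℚ (boxWt d (((∑ i, d i : ℕ) : ℤ) - 2 * (m : ℤ))) := by
    rw [← boxW_eq_boxWt]; infer_instance
  rw [boxW_eq_boxWt] at hq
  obtain ⟨p, hp, he⟩ := (slData d).surj r _ (by
    have : ((2 * m + r : ℕ) : ℤ) ≤ ((∑ i, d i : ℕ) : ℤ) := by exact_mod_cast hmr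
    push_cast at this ⊢
    linarith) q hq
  refine ⟨p, ?_, he⟩
  rw [boxW_eq_boxWt]
  have e : ((∑ i, d i : ℕ) : ℤ) - 2 * (m : ℤ) - 2 * (r : ℤ)
      = ((∑ i, d i : ℕ) : ℤ) - 2 * ((m + r : ℕ) : ℤ) := by push_cast; ring
  rwa [e] at hp

/-- the kernel of `E ^ r` in degree `m`. -/
noncomputable def kerW (d : σ → ℕ) (m r : ℕ) : Submodule ℚ (MvPolynomial σ ℚ) :=
  boxW d m ⊓ LinearMap.ker (opE ^ r)

theorem mem_kerW {d : σ → ℕ} {m r : ℕ} {p : MvPolynomial σ ℚ} :
    p ∈ kerW d m r ↔ p ∈ boxW d m ∧ (opE ^ r) p = 0 := by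
  unfold kerW
  rw [Submodule.mem_inf, LinearMap.mem_ker]

instance kerW_fd (d : σ → ℕ) (m r : ℕ) : FiniteDimensional ℚ (kerW d m r) :=
  Submodule.finiteDimensional_of_le (inf_le_left : kerW d m r ≤ boxW d m)

/-- dimension of the kernel of `E ^ r` from degree `m + r`. -/
theorem finrank_kerW (d : σ → ℕ) (m r : ℕ) (hmr : 2 * m + r ≤ ∑ i, d i) :
    Module.finrank ℚ (kerW d (m + r) r) + Nat.card (boxSet d m) = Nat.card (boxSet d (m + r)) := by
  let T : boxW d (m + r) →ₗ[ℚ] boxW d m :=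
    (opE ^ r).restrict (fun p hp => opE_pow_mem d m r p hp)
  have hT : Function.Surjective T := by
    rintro ⟨q, hq⟩
    obtain ⟨p, hp, he⟩ := opE_pow_surj d m r hmr q hq
    exact ⟨⟨p, hp⟩, Subtype.ext he⟩
  have h1 := LinearMap.finrank_range_add_finrank_ker T
  rw [LinearMap.range_eq_top.mpr hT, finrank_top, finrank_boxW, finrank_boxW] at h1
  have h2 : Module.finrank ℚ (LinearMap.ker T) = Module.finrank ℚ (kerW d (m + r) r) := by
    have e : (LinearMap.ker T).map (boxW d (m + r)).subtype = kerW d (m + r) r := by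
      ext p
      simp only [Submodule.mem_map, LinearMap.mem_ker, Submodule.subtype_apply, Subtype.exists,
        exists_and_right, exists_eq_right, mem_kerW]
      constructor
      · rintro ⟨hp, hpe⟩
        exact ⟨hp, congrArg Subtype.val hpe⟩
      · rintro ⟨hp, hpe⟩
        exact ⟨hp, Subtype.ext hpe⟩
    rw [← e]
    exact (LinearEquiv.finrank_eq
      (Submodule.equivMapOfInjective _ (Submodule.injective_subtype _) _))
  omega

/-- if `m < r` everything of degree `m` is killed. -/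
theorem finrank_kerW_of_lt (d : σ → ℕ) (m r : ℕ) (hmr : m < r) :
    Module.finrank ℚ (kerW d m r) = Nat.card (boxSet d m) := by
  have : kerW d m r = boxW d m := by
    ext p
    rw [mem_kerW]
    exact ⟨fun h => h.1, fun h => ⟨h, opE_pow_eq_zero d m r hmr p h⟩⟩
  rw [this, finrank_boxW]

/-- `E` maps the kernel of `E ^ (r + 1)` onto the kernel of `E ^ r`. -/
theorem opE_kerW_surj (d : σ → ℕ) (m r : ℕ) (hm : 2 * m + 1 ≤ ∑ i, d i) (q : MvPolynomial σ ℚ)
    (hq : q ∈ kerW d m r) : ∃ p ∈ kerW d (m + 1) (r + 1), opE p = q := by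
  rw [mem_kerW] at hq
  obtain ⟨p, hp, he⟩ := opE_pow_surj d m 1 hm q hq.1
  rw [pow_one] at he
  refine ⟨p, ?_, he⟩
  rw [mem_kerW]
  refine ⟨hp, ?_⟩
  rw [pow_succ, Module.End.mul_apply, he]
  exact hq.2

theorem opE_kerW_mem (d : σ → ℕ) (m r : ℕ) (p : MvPolynomial σ ℚ)
    (hp : p ∈ kerW d (m + 1) (r + 1)) : opE p ∈ kerW d m r := by
  rw [mem_kerW] at hp ⊢
  refine ⟨?_, ?_⟩
  · have := opE_pow_mem d m 1 p hp.1
    rwa [pow_one] at this
  · rw [← Module.End.mul_apply, ← pow_succ]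
    exact hp.2

end Pool.Agent.HS44
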